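import Pool.Agent.Q108.Nil.Base

set_option autoImplicit false

/-! # MP_a4b099_al: matrix rings over periodic rings need not be periodic -/

namespace Pool.Agent.Results.MP_a4b099_al.NotPeriodic

/-- A ring is periodic if for every `x` there are positive integers `m ≠ k` with `x^m = x^k`. -/
def Periodic (R : Type) [Ring R] : Prop :=
  ∀ x : R, ∃ m k : ℕ, 0 < m ∧ 0 < k ∧ m ≠ k ∧ x ^ m = x ^ k

/-- It is not true that all matrix rings over a periodic ring are periodic; there is even a
periodic ring with nilpotent elements and units only whose `3 × 3` matrices are not periodic. -/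
theorem result :
    (¬ ∀ (R : Type) [Ring R], Periodic R → ∀ n : ℕ, 1 ≤ n →
      Periodic (Matrix (Fin n) (Fin n) R)) ∧
    ∃ (R : Type) (_ : Ring R), (2 : R) = 0 ∧ (∀ x : R, IsNilpotent x ∨ IsNilpotent (x - 1)) ∧
      Periodic R ∧ ∃ A : Matrix (Fin 3) (Fin 3) R, ∀ m k : ℕ, 0 < m → 0 < k → m ≠ k →
        A ^ m ≠ A ^ k := by
  obtain ⟨R, _, _, D, hD, hloc, hper, M, hM, hnil⟩ := Pool.Agent.Q108.Nil.main
  have hP : Periodic R := by
    intro x
    obtain ⟨m, k, hk, hkm, h⟩ := hper x
    exact ⟨m, k, by omega, hk, by omega, h⟩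
  have hA : ∀ m k : ℕ, 0 < m → 0 < k → m ≠ k → M ^ m ≠ M ^ k := fun m k _ _ hmk he =>
    hnil (Pool.Agent.Q108.Nil.nilpotent_of_periodic D hD hM hmk he)
  refine ⟨fun h => ?_, R, inferInstance, CharTwo.two_eq_zero, fun x => ?_, hP, M, hA⟩
  · obtain ⟨m, k, hm, hk, hmk, he⟩ := h R hP 3 (by norm_num) M
    exact hA m k hm hk hmk he
  · rcases hloc x with hx | hx
    · exact Or.inl (hD x hx)
    · exact Or.inr (hD _ hx)

end Pool.Agent.Results.MP_a4b099_al.NotPeriodic
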